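import Pool.Agent.P.MP_49dad5_gt.Main

namespace Pool.Agent.Results.MP_49dad5_gt.TorusInvariant

open Pool.Agent.P.MP_49dad5_gt MeasureTheory

theorem result (n : ℕ) (hn : 0 < n) : ∃ k₀ : ℕ, ∀ k ≥ k₀,
    ∀ c : Set (Fin n → ℂ) → ENNReal, IsCapacity k c → CylBound k c → ∀ B, IsToricBody B →
    c B ^ n ≤ (k : ENNReal) ^ n * volume B ∧
      (c B ^ n = (k : ENNReal) ^ n * volume B → ∃ a, B = cube n a) :=
  torus_invariant n hn

end Pool.Agent.Results.MP_49dad5_gt.TorusInvariant
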